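import Pool.Agent.V1157.BBF.Self
import Pool.Agent.Y148.BB.Defs

/-!
# Bloch-Beilinson filtrations and the kernels of the Abel-Jacobi maps
-/

open CategoryTheory AlgebraicGeometry

universe u v w

namespace Pool.Agent.V1157.BBF

open Pool.Agent.H914 Pool.Agent.H914.VarClass Pool.Agent.H914.VarClass.Obj Pool.Agent.W492.BB
  Pool.Agent.W550.Corr Pool.Agent.TH133 Pool.Agent.V1157.MJ Pool.Agent.Y148.BB

set_option linter.unusedSectionVars false

variable {k : Type u} [Field k] {𝒱 : VarClass k} {C : TheoryData.{u, v, 0} 𝒱 ℚ}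
  {K : Type w} [Field K]

/-- The vanishing of compositions of self-correspondences on the kernels of the Abel-Jacobi maps:
for all varieties `X`, all `j ≥ 2` and all self-correspondences `Γ_2, …, Γ_j` of degree zero of `X`
such that `Γ_r` acts as zero on `H^(2j-r)(X)`, the composition `Γ_j ∘ ⋯ ∘ Γ_2` acts as zero on the
kernel `N X j` of the Abel-Jacobi map of `CH^j(X)`. -/
def AJVanishing (H : WeilTheoryData.{u, v, w} C K)
    (N : ∀ X : 𝒱.Obj, ℕ → Submodule ℚ (C.A X)) : Prop :=
  ∀ (X : 𝒱.Obj) (j : ℕ) (Γ : ℕ → C.A (X.prod X)), 2 ≤ j →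
    (∀ r, 2 ≤ r → r ≤ j → C.Deg X.dim (Γ r) ∧ Kills H (Γ r) (2 * j - r)) →
    ∀ z ∈ N X j, actSeq C (fun r => Γ (r + 2)) (j - 1) z = 0

variable [hC : IsChowProj C] {H : WeilTheoryData.{u, v, w} C K} [hH : IsWeilProj H]
  {X Y Z W : 𝒱.Obj} {N : ∀ X : 𝒱.Obj, ℕ → Submodule ℚ (C.A X)}

include hC hH

lemma actSeq_add (Γ : ℕ → C.A (X.prod X)) (m n : ℕ) (x : C.A X) :
    actSeq C Γ (m + n) x = actSeq C (fun r => Γ (r + m)) n (actSeq C Γ m x) := by
  induction n with
  | zero => rfl
  | succ n ih =>
    change C.act (Γ (m + n)) (actSeq C Γ (m + n) x) = _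
    rw [ih, add_comm m n]
    rfl

/-- A homologically trivial class in `CH^0(X)` is zero. -/
lemma eq_zero_of_deg_zero {x : C.A X} (hx : x ∈ C.gr X 0) (hcl : H.cl x = 0) : x = 0 := by
  obtain ⟨q, hq⟩ := hC.gr_zero X x hx
  by_cases hq0 : q = 0
  · rw [hq, hq0, zero_smul]
  · exfalso
    apply hH.one_ne_zero X
    have h1 : (1 : C.A X) = (q⁻¹ • (1 : C.A X)) * x := by
      rw [hq, smul_mul_smul_comm, inv_mul_cancel₀ hq0, one_smul, one_mul]
    rw [← map_one H.cl, h1, map_mul, hcl, mul_zero]

/-- The vanishing on the Abel-Jacobi kernels implies the vanishing on the Chow groups. -/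
lemma selfVanishing_of_AJ (hN : IsAbelJacobiKernel H N) (hV : AJVanishing H N) :
    SelfVanishing H := by
  intro X i Γ hΓ x hx
  have h0 : C.Deg i (C.act (Γ 0) x) ∧ H.cl (C.act (Γ 0) x) = 0 := by
    have h1 := hΓ 0 (by omega)
    refine ⟨act_mem0 C h1.1 hx, ?_⟩
    rw [cl_act H]
    apply h1.2
    have h2 := H.cl_mem hx
    simpa using h2
  rcases Nat.eq_zero_or_pos i with hi | hi
  · subst hi
    exact eq_zero_of_deg_zero (H := H) (by exact_mod_cast h0.1) h0.2
  · have h1 : C.act (Γ 1) (C.act (Γ 0) x) ∈ N X i := by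
      have h2 := hΓ 1 (by omega)
      exact hN.kills X X i i (Γ 1) (deg_self (H := H) h2.1) (by exact_mod_cast h2.2) _ h0.1 h0.2
    obtain ⟨m, rfl⟩ : ∃ m, i = m + 1 := ⟨i - 1, by omega⟩
    have h3 : actSeq C Γ (m + 1 + 1) x = actSeq C (fun r => Γ (r + 2)) m
        (C.act (Γ 1) (C.act (Γ 0) x)) := by
      have e1 : m + 1 + 1 = 2 + m := by ring
      rw [e1, actSeq_add (H := H)]
      rfl
    rw [h3]
    rcases Nat.eq_zero_or_pos m with hm | hm
    · subst hm
      exact hN.abel X _ h1
    · have h4 := hV X (m + 1) Γ (by omega) (fun r _ hr => hΓ r (by omega)) _ h1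
      rwa [show m + 1 - 1 = m by omega] at h4

/-- Abel-Jacobi kernels under the vanishing. -/
lemma mem_fil_two (hK : KunnethConjecture H) (hN : IsAbelJacobiKernel H N)
    (hV : AJVanishing H N) (X : 𝒱.Obj) (j : ℕ) : (fil H).F X j 2 = N X j := by
  have hS := selfVanishing_of_AJ hN hV
  apply le_antisymm
  · apply Submodule.span_le.2
    intro x hx
    cases hx with
    | cons _ Z _ l _ z Γ hz hΓ had =>
      have h1 := (S_one Z l z).1 (Submodule.subset_span hz)
      apply hN.kills Z X l j Γ hΓ _ z h1.1 h1.2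
      rcases had with had | ⟨_, had⟩
      · exact had _
      · exact_mod_cast had
  · intro z hz
    have hz' := hN.deg X j z hz
    rcases Nat.eq_zero_or_pos j with hj | hj
    · subst hj
      rw [eq_zero_of_deg_zero (H := H) (by exact_mod_cast hz'.1) hz'.2]
      exact Submodule.zero_mem _
    obtain ⟨π, hπ⟩ : ∃ π, IsCK H X π :=
      exists_CK hK X fun ν hν hcl => ⟨_, nilpotent_of_self hS ν hν hcl⟩
    have h1 : C.act (π (2 * j)) z = 0 := by
      have h2 := (murreD_of_self hS X π hπ j z).2 hz'
      rw [hπ.mem_ckFil] at h2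
      exact h2.2 _ (by omega)
    have h2 : C.act (π (2 * j - 1)) z = 0 := by
      have h3 : C.act (π (2 * j - 1)) z ∈ N X j :=
        hN.stable X X j j _ (deg_self (H := H) (hπ.deg _)) z hz
      rcases eq_or_lt_of_le (show 1 ≤ j by omega) with hj1 | hj1
      · subst hj1
        exact hN.abel X _ h3
      · have h4 := hV X j (fun _ => π (2 * j - 1)) (by omega) (fun r hr hr' =>
          ⟨hπ.deg _, fun a ha => hπ.act_ne _ _ a (by omega) ha⟩) z hz
        obtain ⟨m, hm⟩ : ∃ m, j - 1 = m + 1 := ⟨j - 2, by omega⟩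
        rw [hm, actSeq_const (H := H) (hπ.idem _)] at h4
        exact h4
    have h5 : Lowering H j 2 (fun r => dg C X - π (2 * j - r)) := by
      intro r hr
      refine ⟨Submodule.sub_mem _ (dg_mem C X) (hπ.deg _), fun a ha => ?_⟩
      have h1 : H.cl (dg C X - π (2 * j - r)) = H.cl (dg C X) - H.cl (π (2 * j - r)) :=
        map_sub _ _ _
      rw [h1, H.act_sub, actH_dg, hπ.act_self (2 * j - r) a, sub_self]
      have e1 : ((2 * j - r : ℕ) : ℤ) = 2 * (j : ℤ) - r := by omega
      rw [e1]
      exact ha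
    have h6 := actSeq_mem (C := C) (fil_isStable (H := H)) hK (x := z) (i := j)
      (by change z ∈ S H 0 X j; rw [S_zero]; exact hz'.1) 2 h5
    have h7 : actSeq C (fun r => dg C X - π (2 * j - r)) 2 z = z := by
      change C.act (dg C X - π (2 * j - 1)) (C.act (dg C X - π (2 * j - 0)) z) = z
      rw [C.act_sub, C.act_sub, act_dg, act_dg, Nat.sub_zero, h1, sub_zero, h2, sub_zero]
    rwa [h7] at h6

/-- **The criterion.** -/
theorem exists_iff_AJ (hK : KunnethConjecture H) (hN : IsAbelJacobiKernel H N) :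
    (∃ F, IsBlochBeilinsonOn H N (fun _ => True) F) ↔ AJVanishing H N := by
  constructor
  · rintro ⟨F, hF⟩ X j Γ hj hΓ z hz
    have key : ∀ n, n ≤ j - 1 → actSeq C (fun r => Γ (r + 2)) n z ∈ F X j (n + 2) := by
      intro n
      induction n with
      | zero =>
        intro _
        change z ∈ F X j 2
        rw [hF.two X trivial j]
        exact hz
      | succ n ih =>
        intro hn
        have h1 := hΓ (n + 2) (by omega) (by omega)
        exact hF.shift X X trivial trivial j j (n + 2) (Γ (n + 2)) (deg_self (H := H) h1.1) h1.2 _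
          (ih (by omega))
    have h2 := key (j - 1) le_rfl
    have e1 : j - 1 + 2 = j + 1 := by omega
    rw [e1, hF.top X trivial j, Submodule.mem_bot] at h2
    exact h2
  · intro hV
    have hS := selfVanishing_of_AJ hN hV
    have hBB : IsBB H (fil H) := fil_isBB (exists_iff.1 ((exists_iff_self hK).2 hS))
    refine ⟨(fil H).F, ?_⟩
    exact
      { anti := fun X _ j ν => (fil H).anti X j ν
        zero := fun X _ j z => hBB.bounded.zero X j z
        one := fun X _ j z => hBB.bounded.one X j z
        two := fun X _ j => mem_fil_two hK hN hV X j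
        top := fun X _ j => by
          rw [eq_bot_iff]
          intro z hz
          exact hBB.bounded.top X j z hz
        stable := fun X Y _ _ j i ν Γ hΓ z hz => fil_isStable.stable X Y j i ν Γ hΓ z hz
        shift := fun X Y _ _ j i ν Γ hΓ hk z hz =>
          fil_isStable.shift X Y j i ν Γ hΓ (Or.inr ⟨hK, hk⟩) z hz }

/-- **Uniqueness and the description of the steps.** -/
theorem mem_iff_AJ (hK : KunnethConjecture H) (hN : IsAbelJacobiKernel H N)
    {F : ∀ X : 𝒱.Obj, ℕ → ℕ → Submodule ℚ (C.A X)}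
    (hF : IsBlochBeilinsonOn H N (fun _ => True) F) (X : 𝒱.Obj) (j ν : ℕ) (z : C.A X) :
    z ∈ F X j ν ↔ ∃ (Γ : ℕ → C.A (X.prod X)) (y : C.A X),
      Lowering H j ν Γ ∧ C.Deg j y ∧ actSeq C Γ ν y = z := by
  have hanti : ∀ (X : 𝒱.Obj) (j : ℕ) {m n : ℕ}, m ≤ n → F X j n ≤ F X j m := by
    intro X j m n h
    induction n, h using Nat.le_induction with
    | base => exact le_rfl
    | succ n _ ih => exact (hF.anti X trivial j n).trans ih
  constructor
  · intro hz
    rcases lt_or_ge j ν with hn | hn
    · have h0 : z = 0 := by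
        have := hanti X j (show j + 1 ≤ ν by omega) hz
        rw [hF.top X trivial j, Submodule.mem_bot] at this
        exact this
      refine ⟨fun _ => 0, 0, ?_, Submodule.zero_mem _, ?_⟩
      · intro r _
        refine ⟨Submodule.zero_mem _, fun a _ => ?_⟩
        rw [map_zero, TheoryData.act_zero]
      · rw [actSeq_zero (H := H), h0]
    · have hS := selfVanishing_of_AJ hN ((exists_iff_AJ hK hN).1 ⟨F, hF⟩)
      obtain ⟨π, hπ⟩ : ∃ π, IsCK H X π :=
        exists_CK hK X fun ν hν hcl => ⟨_, nilpotent_of_self hS ν hν hcl⟩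
      have hck : ∀ m, 2 * j < m + ν → C.act (π m) z = 0 := by
        intro m hm
        have h1 : ∀ M, C.act (π m) z ∈ F X j (ν + M) := by
          intro M
          induction M with
          | zero =>
            exact hF.stable X X trivial trivial j j ν (π m) (deg_self (H := H) (hπ.deg m)) z hz
          | succ M ih =>
            have h2 := hF.shift X X trivial trivial j j (ν + M) (π m)
              (deg_self (H := H) (hπ.deg m)) (fun a ha => hπ.act_ne m _ a (by omega) ha) _ ih
            rwa [← C.act_comp, hπ.idem] at h2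
        have h2 := hanti X j (by omega : j + 1 ≤ ν + (j + 1)) (h1 (j + 1))
        rw [hF.top X trivial j, Submodule.mem_bot] at h2
        exact h2
      refine ⟨fun r => dg C X - π (2 * j - r), z, ?_, ?_, ?_⟩
      · intro r hr
        refine ⟨Submodule.sub_mem _ (dg_mem C X) (hπ.deg _), fun a ha => ?_⟩
        have h1 : H.cl (dg C X - π (2 * j - r)) = H.cl (dg C X) - H.cl (π (2 * j - r)) :=
          map_sub _ _ _
        rw [h1, H.act_sub, actH_dg, hπ.act_self (2 * j - r) a, sub_self]
        have e1 : ((2 * j - r : ℕ) : ℤ) = 2 * (j : ℤ) - r := by omega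
        rw [e1]
        exact ha
      · exact (hF.zero X trivial j z).1 (hanti X j (Nat.zero_le ν) hz)
      · have h2 : ∀ m ≤ ν, actSeq C (fun r => dg C X - π (2 * j - r)) m z = z := by
          intro m
          induction m with
          | zero => exact fun _ => rfl
          | succ m ih =>
            intro hm
            change C.act (dg C X - π (2 * j - m)) (actSeq C _ m z) = z
            rw [ih (by omega), C.act_sub, act_dg, hck _ (by omega), sub_zero]
        exact h2 ν le_rfl
  · rintro ⟨Γ, y, hΓ, hy, rfl⟩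
    have key : ∀ n, n ≤ ν → actSeq C Γ n y ∈ F X j n := by
      intro n
      induction n with
      | zero => exact fun _ => (hF.zero X trivial j y).2 hy
      | succ n ih =>
        intro hn
        have h1 := hΓ n (by omega)
        exact hF.shift X X trivial trivial j j n (Γ n) (deg_self (H := H) h1.1) h1.2 _
          (ih (by omega))
    exact key ν le_rfl

end Pool.Agent.V1157.BBF
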