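import Pool.Agent.V1157.BBF.AJ

/-!
# Bloch-Beilinson filtrations without the Kunneth conjecture
-/

open CategoryTheory AlgebraicGeometry

universe u v w

namespace Pool.Agent.V1157.BBF

open Pool.Agent.H914 Pool.Agent.H914.VarClass Pool.Agent.H914.VarClass.Obj Pool.Agent.W492.BB
  Pool.Agent.W550.Corr Pool.Agent.TH133 Pool.Agent.V1157.MJ Pool.Agent.Y148.BB

set_option linter.unusedSectionVars false

variable {k : Type u} [Field k] {𝒱 : VarClass k} {C : TheoryData.{u, v, 0} 𝒱 ℚ}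
  {K : Type w} [Field K]

/-- `AJChain H N n X j z`: the class `z ∈ CH^j(X)` is obtained from a class in the kernel of an
Abel-Jacobi map by applying successively `n - 2` correspondences, the correspondence applied at the
`r`-th step (`r = 2, …, n - 1`), from `CH^l(Z)` to the next group, being zero on `H^(2l-r)(Z)`. -/
inductive AJChain (H : WeilTheoryData.{u, v, w} C K)
    (N : ∀ X : 𝒱.Obj, ℕ → Submodule ℚ (C.A X)) : ℕ → (X : 𝒱.Obj) → ℕ → C.A X → Prop
  | nil (X : 𝒱.Obj) (j : ℕ) (z : C.A X) (hz : z ∈ N X j) : AJChain H N 2 X j z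
  | cons (r : ℕ) (Z X : 𝒱.Obj) (l j : ℕ) (z : C.A Z) (Γ : C.A (Z.prod X))
      (hz : AJChain H N r Z l z) (hΓ : C.Deg (Z.dim + j - l) Γ) (hk : Kills H Γ (2 * l - r)) :
      AJChain H N (r + 1) X j (C.act Γ z)

variable [hC : IsChowProj C] {H : WeilTheoryData.{u, v, w} C K} [hH : IsWeilProj H]
  {X Y Z W : 𝒱.Obj} {N : ∀ X : 𝒱.Obj, ℕ → Submodule ℚ (C.A X)}

lemma AJChain.two_le {n : ℕ} {X : 𝒱.Obj} {j : ℕ} {z : C.A X} (h : AJChain H N n X j z) :
    2 ≤ n := by
  induction h with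
  | nil => exact le_rfl
  | cons r Z X l j z Γ _ _ _ ih => omega

include hC hH

lemma AJChain.act (hN : IsAbelJacobiKernel H N) {n j i : ℕ} {z : C.A X}
    (h : AJChain H N n X j z) {Γ : C.A (X.prod Y)} (hΓ : Γ ∈ C.gr (X.prod Y) (X.dim + i - j)) :
    AJChain H N n Y i (C.act Γ z) := by
  cases h with
  | nil _ _ _ hz => exact AJChain.nil Y i _ (hN.stable X Y j i Γ hΓ z hz)
  | cons r Z _ l _ y Δ hy hΔ hk =>
    rw [← C.act_comp]
    refine AJChain.cons r Z Y l i y _ hy ?_ (kills_comp hk Γ)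
    have h1 : Γ ∈ C.gr (X.prod Y) (X.dim + ((i : ℤ) - j)) := by
      rw [← add_sub_assoc]; exact hΓ
    have h2 : Δ ∈ C.gr (Z.prod X) (Z.dim + ((j : ℤ) - l)) := by
      rw [← add_sub_assoc]; exact hΔ
    have h3 := comp_mem' (H := H) h2 h1
    have e1 : (Z.dim : ℤ) + (((j : ℤ) - l) + ((i : ℤ) - j)) = Z.dim + i - l := by ring
    rwa [e1] at h3

omit hC hH in
/-- The homologically trivial classes. -/
noncomputable def homTriv (H : WeilTheoryData.{u, v, w} C K) (X : 𝒱.Obj) (j : ℕ) :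
    Submodule ℚ (C.A X) where
  carrier := {x | x ∈ C.gr X j ∧ H.cl x = 0}
  zero_mem' := ⟨Submodule.zero_mem _, map_zero _⟩
  add_mem' := by
    rintro a b ⟨ha, ha'⟩ ⟨hb, hb'⟩
    exact ⟨Submodule.add_mem _ ha hb, by rw [map_add, ha', hb', add_zero]⟩
  smul_mem' := by
    rintro q a ⟨ha, ha'⟩
    refine ⟨Submodule.smul_mem _ q ha, ?_⟩
    have e1 : q • a = (q • (1 : C.A X)) * a := by rw [smul_mul_assoc, one_mul]
    rw [e1, map_mul, ha', mul_zero]

omit hC hH in
/-- The smallest candidate for a Bloch-Beilinson filtration. -/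
noncomputable def ajFil (H : WeilTheoryData.{u, v, w} C K)
    (N : ∀ X : 𝒱.Obj, ℕ → Submodule ℚ (C.A X)) (X : 𝒱.Obj) (j : ℕ) : ℕ → Submodule ℚ (C.A X)
  | 0 => C.gr X j
  | 1 => homTriv H X j
  | n + 2 => Submodule.span ℚ {z | AJChain H N (n + 2) X j z}

lemma ajFil_two (hN : IsAbelJacobiKernel H N) (X : 𝒱.Obj) (j : ℕ) : ajFil H N X j 2 = N X j := by
  apply le_antisymm
  · apply Submodule.span_le.2
    intro z hz
    rcases hz with ⟨_, _, _, hz⟩ | ⟨r, Z, _, l, _, z, Γ, hz, hΓ, hk⟩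
    · exact hz
    · exact absurd hz.two_le (by omega)
  · intro z hz
    exact Submodule.subset_span (AJChain.nil X j z hz)

lemma ajFil_stable (hN : IsAbelJacobiKernel H N) (j i ν : ℕ) {Γ : C.A (X.prod Y)}
    (hΓ : Γ ∈ C.gr (X.prod Y) (X.dim + i - j)) {z : C.A X} (hz : z ∈ ajFil H N X j ν) :
    C.act Γ z ∈ ajFil H N Y i ν := by
  have h1 : Γ ∈ C.gr (X.prod Y) (X.dim + ((i : ℤ) - j)) := by
    rw [← add_sub_assoc]; exact hΓ
  match ν, hz with
  | 0, hz =>
    have := act_mem (C := C) h1 hz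
    rw [add_sub_cancel] at this
    exact this
  | 1, hz =>
    have := act_mem (C := C) h1 hz.1
    rw [add_sub_cancel] at this
    refine ⟨this, ?_⟩
    rw [cl_act H, hz.2, TheoryData.act_map_zero]
  | n + 2, hz =>
    have h2 : ajFil H N X j (n + 2) ≤ (ajFil H N Y i (n + 2)).comap (C.actL Γ) :=
      Submodule.span_le.2 fun x hx => Submodule.subset_span (AJChain.act hN hx hΓ)
    exact h2 hz

lemma ajFil_shift (hN : IsAbelJacobiKernel H N) (j i ν : ℕ) {Γ : C.A (X.prod Y)}
    (hΓ : Γ ∈ C.gr (X.prod Y) (X.dim + i - j)) (hk : Kills H Γ (2 * j - ν)) {z : C.A X}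
    (hz : z ∈ ajFil H N X j ν) : C.act Γ z ∈ ajFil H N Y i (ν + 1) := by
  have h1 : Γ ∈ C.gr (X.prod Y) (X.dim + ((i : ℤ) - j)) := by
    rw [← add_sub_assoc]; exact hΓ
  match ν, hz, hk with
  | 0, hz, hk =>
    have := act_mem (C := C) h1 hz
    rw [add_sub_cancel] at this
    refine ⟨this, ?_⟩
    rw [cl_act H]
    apply hk
    have h2 := H.cl_mem hz
    simpa using h2
  | 1, hz, hk =>
    have h2 := hN.kills X Y j i Γ hΓ (by exact_mod_cast hk) z hz.1 hz.2
    rwa [← ajFil_two hN] at h2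
  | n + 2, hz, hk =>
    have h2 : ajFil H N X j (n + 2) ≤ (ajFil H N Y i (n + 2 + 1)).comap (C.actL Γ) :=
      Submodule.span_le.2 fun x hx =>
        Submodule.subset_span (AJChain.cons (n + 2) X Y j i x Γ hx hΓ hk)
    exact h2 hz

lemma ajFil_anti (hN : IsAbelJacobiKernel H N) (X : 𝒱.Obj) (j ν : ℕ) :
    ajFil H N X j (ν + 1) ≤ ajFil H N X j ν := by
  match ν with
  | 0 => exact fun z hz => hz.1
  | 1 =>
    intro z hz
    rw [show (1 + 1 : ℕ) = 2 from rfl, ajFil_two hN] at hz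
    exact hN.deg X j z hz
  | n + 2 =>
    apply Submodule.span_le.2
    intro z hz
    have hz' : AJChain H N (n + 2 + 1) X j z := hz
    cases hz' with
    | cons _ Z _ l _ y Γ hy hΓ _ => exact Submodule.subset_span (AJChain.act hN hy hΓ)

/-- **The criterion without the Kunneth conjecture.** -/
theorem exists_iff_chain (hN : IsAbelJacobiKernel H N) :
    (∃ F, IsBlochBeilinsonOn H N (fun _ => True) F) ↔
      ∀ (X : 𝒱.Obj) (j : ℕ) (z : C.A X), AJChain H N (j + 1) X j z → z = 0 := by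
  constructor
  · rintro ⟨F, hF⟩ X j z hz
    have key : ∀ (n : ℕ) (X : 𝒱.Obj) (j : ℕ) (z : C.A X), AJChain H N n X j z → z ∈ F X j n := by
      intro n X j z h
      induction h with
      | nil X j z hz => rwa [hF.two X trivial j]
      | cons r Z X l j z Γ _ hΓ hk ih =>
        exact hF.shift Z X trivial trivial l j r Γ hΓ hk z ih
    have h1 := key _ X j z hz
    rw [hF.top X trivial j, Submodule.mem_bot] at h1
    exact h1
  · intro h
    refine ⟨ajFil H N, ?_⟩
    exact
      { anti := fun X _ j ν => ajFil_anti hN X j ν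
        zero := fun X _ j z => Iff.rfl
        one := fun X _ j z => Iff.rfl
        two := fun X _ j => ajFil_two hN X j
        top := fun X _ j => by
          match j with
          | 0 =>
            rw [eq_bot_iff]
            intro z hz
            exact eq_zero_of_deg_zero (H := H) (by exact_mod_cast hz.1) hz.2
          | n + 1 =>
            rw [eq_bot_iff]
            exact Submodule.span_le.2 fun z hz => h X (n + 1) z hz
        stable := fun X Y _ _ j i ν Γ hΓ z hz => ajFil_stable hN j i ν hΓ hz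
        shift := fun X Y _ _ j i ν Γ hΓ hk z hz => ajFil_shift hN j i ν hΓ hk hz }

end Pool.Agent.V1157.BBF
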