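import Pool.Agent.W492.BB.Defs

/-!
# Compositions of self-correspondences acting on the Chow groups
-/

open CategoryTheory AlgebraicGeometry

universe u v w

namespace Pool.Agent.V1157.BBF

open Pool.Agent.H914 Pool.Agent.H914.VarClass Pool.Agent.H914.VarClass.Obj Pool.Agent.W492.BB

variable {k : Type u} [Field k] {𝒱 : VarClass k}

/-- The action of the composition of the first `n` of the self-correspondences `Γ 0, Γ 1, …`
(applied in this order) on the class `x`. -/
noncomputable def actSeq (C : TheoryData.{u, v, 0} 𝒱 ℚ) {X : 𝒱.Obj} (Γ : ℕ → C.A (X.prod X)) :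
    ℕ → C.A X → C.A X
  | 0, x => x
  | n + 1, x => C.act (Γ n) (actSeq C Γ n x)

/-- The first `n` of the self-correspondences `Γ 0, Γ 1, …` have degree zero, and `Γ r` acts as
zero on the cohomology `H^(2i-r)(X)`, for `r < n`. -/
def Lowering {C : TheoryData.{u, v, 0} 𝒱 ℚ} {K : Type w} [Field K]
    (H : WeilTheoryData.{u, v, w} C K) {X : 𝒱.Obj} (i n : ℕ) (Γ : ℕ → C.A (X.prod X)) : Prop :=
  ∀ r < n, C.Deg X.dim (Γ r) ∧ Kills H (Γ r) (2 * i - r)

/-- The vanishing of compositions of self-correspondences: for all varieties `X`, all `i ≥ 0` and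
all self-correspondences `Γ_0, …, Γ_i` of degree zero of `X` such that `Γ_r` acts as zero on
`H^(2i-r)(X)` for all `r ≤ i`, the composition `Γ_i ∘ ⋯ ∘ Γ_0` acts as zero on `CH^i(X)`. -/
def SelfVanishing {C : TheoryData.{u, v, 0} 𝒱 ℚ} {K : Type w} [Field K]
    (H : WeilTheoryData.{u, v, w} C K) : Prop :=
  ∀ (X : 𝒱.Obj) (i : ℕ) (Γ : ℕ → C.A (X.prod X)), Lowering H i (i + 1) Γ →
    ∀ x : C.A X, C.Deg i x → actSeq C Γ (i + 1) x = 0

end Pool.Agent.V1157.BBF
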