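import Pool.Agent.V1157.BBF.Span

/-!
# Bloch-Beilinson filtrations are stable under correspondences
-/

open CategoryTheory AlgebraicGeometry

universe u v w

namespace Pool.Agent.V1157.BBF

open Pool.Agent.H914 Pool.Agent.H914.VarClass Pool.Agent.H914.VarClass.Obj Pool.Agent.W492.BB

set_option linter.unusedSectionVars false

variable {k : Type u} [Field k] {𝒱 : VarClass k} {C : TheoryData.{u, v, 0} 𝒱 ℚ} {K : Type w}
  [Field K] {H : WeilTheoryData.{u, v, w} C K} [hC : IsChow C] [hH : IsWeil H]
  {X Y Z W : 𝒱.Obj}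

include hC hH

lemma fil_anti_le (F : Filtration C) (X : 𝒱.Obj) (i : ℕ) {m n : ℕ} (h : m ≤ n) :
    F.F X i n ≤ F.F X i m := by
  induction n, h using Nat.le_induction with
  | base => exact le_rfl
  | succ n _ ih => exact (F.anti X i n).trans ih

/-- The action of a correspondence in `F^m` on a class in `F^n`. -/
lemma act_fil {F : Filtration C} (hF : IsBB H F) {m : ℕ} (hm : m ≤ 1) {Z X : 𝒱.Obj} {j i n : ℕ}
    {Γ : C.A (Z.prod X)} (hΓ : Γ ∈ C.gr (Z.prod X) (Z.dim + i - j)) (hcl : m = 1 → H.cl Γ = 0)
    {z : C.A Z} (hz : F.Mem j n z) : F.Mem i (m + n) (C.act Γ z) := by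
  rcases lt_or_ge (Z.dim + i) j with h1 | h1
  · have h2 : Γ = 0 := by
      rw [C.gr_neg _ _ (by omega)] at hΓ
      exact (Submodule.mem_bot _).1 hΓ
    rw [h2, TheoryData.act_zero]
    exact Submodule.zero_mem _
  · obtain ⟨r, hr⟩ := Nat.exists_eq_add_of_le h1
    have hΓr : Γ ∈ C.gr (Z.prod X) (r : ℕ) := by
      have e1 : (Z.dim : ℤ) + i - j = (r : ℕ) := by
        have : ((Z.dim + i : ℕ) : ℤ) = ((j + r : ℕ) : ℤ) := by rw [hr]
        push_cast at this
        linarith
      rwa [e1] at hΓ
    have hΓF : F.Mem r m Γ := by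
      rcases Nat.le_one_iff_eq_zero_or_eq_one.1 hm with rfl | rfl
      · exact (hF.bounded.zero _ r Γ).2 hΓr
      · exact (hF.bounded.one _ r Γ).2 ⟨hΓr, hcl rfl⟩
    have h3 := hF.multiplicative.mul hΓF (hF.multiplicative.pull (fst Z X) hz)
    exact hF.multiplicative.push (snd Z X) (by rw [dim_prod]; omega) h3

/-- **Bloch-Beilinson filtrations are stable.** -/
theorem isStable_of_isBB {F : Filtration C} (hF : IsBB H F) : IsStable H F where
  stable Z X j i n Γ hΓ z hz := by
    have := act_fil hF (m := 0) (by omega) hΓ (by simp) hz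
    rwa [zero_add] at this
  shift Z X j i n Γ hΓ had z hz := by
    have hst : ∀ {j i n : ℕ} {Z X : 𝒱.Obj} {Γ : C.A (Z.prod X)},
        Γ ∈ C.gr (Z.prod X) (Z.dim + i - j) → ∀ {z : C.A Z}, F.Mem j n z →
          F.Mem i n (C.act Γ z) := by
      intro j i n Z X Γ hΓ z hz
      have := act_fil hF (m := 0) (by omega) hΓ (by simp) hz
      rwa [zero_add] at this
    have hhom : ∀ {j i n : ℕ} {Z X : 𝒱.Obj} {Γ : C.A (Z.prod X)},
        Γ ∈ C.gr (Z.prod X) (Z.dim + i - j) → H.cl Γ = 0 → ∀ {z : C.A Z}, F.Mem j n z →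
          F.Mem i (n + 1) (C.act Γ z) := by
      intro j i n Z X Γ hΓ hcl z hz
      have := act_fil hF (m := 1) le_rfl hΓ (fun _ => hcl) hz
      rwa [add_comm] at this
    rcases had with had | ⟨hK, had⟩
    · exact hhom hΓ (eq_zero_of_act H _ (act_eq_zero_of_kills H Γ had)) hz
    · obtain ⟨q, hq, hq'⟩ := exists_projector hK Z (2 * j - n)
      have hq0 : q ∈ C.gr (Z.prod Z) (Z.dim + 0) := by rw [add_zero]; exact hq
      have hΓ' : Γ ∈ C.gr (Z.prod X) (Z.dim + ((i : ℤ) - j)) := by
        rw [← add_sub_assoc]; exact hΓ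
      -- the complement of the projector
      obtain ⟨q', hq'm, hq'1, hq'2⟩ : Realised H Z Z 0 (fun y => y - C.act q y)
          (fun a => a - H.act (H.cl q) a) := (Realised.id Z).sub (Realised.of hq0)
      have h1 : F.Mem j (n + 1) (z - C.act q z) := by
        have h2 := hF.motivic hK Z j n q' (by rw [add_zero] at hq'm; exact hq'm) (by
          intro a ha
          rw [hq'2]
          change a - H.act (H.cl q) a = 0
          rw [hq' _ a ha, if_pos rfl, sub_self]) z hz
        rwa [hq'1] at h2
      have h3 : C.act Γ z = C.act Γ (C.act q z) + C.act Γ (z - C.act q z) := by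
        have := map_add (C.actL Γ) (C.act q z) (z - C.act q z)
        rw [add_sub_cancel] at this
        exact this
      rw [h3]
      apply Submodule.add_mem
      · rw [← C.act_comp]
        apply hhom (Z := Z) _ _ hz
        · have h4 := comp_mem' (H := H) hq0 hΓ'
          have e1 : (Z.dim : ℤ) + (0 + ((i : ℤ) - j)) = Z.dim + i - j := by ring
          rwa [e1] at h4
        · apply eq_zero_of_act H
          intro a
          rw [cl_comp' (H := H), H.act_comp]
          have h5 : (H.actL (H.cl Γ)) ∘ₗ (H.actL (H.cl q)) = 0 := by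
            have h6 : ⨆ l, H.gr Z l ≤ LinearMap.ker ((H.actL (H.cl Γ)) ∘ₗ (H.actL (H.cl q))) := by
              refine iSup_le fun l b hb => ?_
              rw [LinearMap.mem_ker, LinearMap.comp_apply, TheoryData.actL_apply,
                TheoryData.actL_apply, hq' l b hb]
              split_ifs with hl
              · subst hl
                exact had b hb
              · exact TheoryData.act_map_zero _ _
            rw [(H.isInternal Z).submodule_iSup_eq_top] at h6
            exact LinearMap.ker_eq_top.1 (top_le_iff.1 h6)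
          exact LinearMap.congr_fun h5 a
      · exact hst hΓ h1

/-- Chains lie in the steps of a Bloch-Beilinson filtration. -/
lemma chain_mem {F : Filtration C} (hF : IsBB H F) {n i : ℕ} {x : C.A X}
    (h : Chain H n X i x) : F.Mem i n x := by
  induction h with
  | nil X i x hx => exact (hF.bounded.zero X i x).2 hx
  | cons r Z X j i z Γ _ hΓ had ih => exact (isStable_of_isBB hF).shift Z X j i r Γ hΓ had z ih

lemma S_le_fil {F : Filtration C} (hF : IsBB H F) (n : ℕ) (X : 𝒱.Obj) (i : ℕ) :
    S H n X i ≤ F.F X i n := Submodule.span_le.2 fun _ hx => chain_mem hF hx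

/-- **Existence of a Bloch-Beilinson filtration.** -/
theorem exists_iff : (∃ F : Filtration C, IsBB H F) ↔
    ∀ (X : 𝒱.Obj) (i : ℕ) (x : C.A X), Chain H (i + 1) X i x → x = 0 := by
  constructor
  · rintro ⟨F, hF⟩ X i x hx
    exact hF.bounded.top X i x (chain_mem hF hx)
  · intro h
    exact ⟨fil H, fil_isBB h⟩

end Pool.Agent.V1157.BBF
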