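import Pool.Agent.V1157.BBF.Defs
import Pool.Agent.V1157.BBF.Stable
import Pool.Agent.V1157.MJ.Main
import Mathlib.RingTheory.Idempotents

/-!
# Bloch-Beilinson filtrations and compositions of self-correspondences
-/

open CategoryTheory AlgebraicGeometry

universe u v w

namespace Pool.Agent.V1157.BBF

open Pool.Agent.H914 Pool.Agent.H914.VarClass Pool.Agent.H914.VarClass.Obj Pool.Agent.W492.BB
  Pool.Agent.W550.Corr Pool.Agent.TH133 Pool.Agent.V1157.MJ

set_option linter.unusedSectionVars false

variable {k : Type u} [Field k] {𝒱 : VarClass k} {C : TheoryData.{u, v, 0} 𝒱 ℚ}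
  [hC : IsChowProj C] {K : Type w} [Field K]
  {H : WeilTheoryData.{u, v, w} C K} [hH : IsWeilProj H] {X Y Z W : 𝒱.Obj}

include hC hH

lemma deg_self {i : ℕ} {Γ : C.A (X.prod X)} (hΓ : Γ ∈ C.gr (X.prod X) X.dim) :
    Γ ∈ C.gr (X.prod X) (X.dim + i - i) := by
  rwa [add_sub_cancel_right]

/-- Stable filtrations contain the images of compositions. -/
lemma actSeq_mem {F : Filtration C} (hF : IsStable H F) (hK : KunnethConjecture H)
    {i : ℕ} {Γ : ℕ → C.A (X.prod X)} {x : C.A X} (hx : F.Mem i 0 x) :
    ∀ n, Lowering H i n Γ → F.Mem i n (actSeq C Γ n x) := by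
  intro n
  induction n with
  | zero => exact fun _ => hx
  | succ n ih =>
    intro h
    have h1 := ih fun r hr => h r (by omega)
    exact hF.shift X X i i n (Γ n) (deg_self (H := H) (h n (by omega)).1)
      (Or.inr ⟨hK, (h n (by omega)).2⟩) _ h1

lemma selfVanishing_of_isBB {F : Filtration C} (hF : IsBB H F) (hK : KunnethConjecture H) :
    SelfVanishing H := by
  intro X i Γ hΓ x hx
  exact hF.bounded.top X i _ (actSeq_mem (isStable_of_isBB hF) hK
    ((hF.bounded.zero X i x).2 hx) (i + 1) hΓ)

lemma actSeq_const {p : C.A (X.prod X)} (hp : C.comp p p = p) (n : ℕ) (x : C.A X) :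
    actSeq C (fun _ => p) (n + 1) x = C.act p x := by
  induction n with
  | zero => rfl
  | succ n ih =>
    change C.act p (actSeq C (fun _ => p) (n + 1) x) = _
    rw [ih, ← C.act_comp, hp]

/-- Self-vanishing implies (B). -/
lemma act_zero_of_self (hS : SelfVanishing H) {π : ℕ → C.A (X.prod X)} (hπ : IsCK H X π)
    {i j : ℕ} (hij : j < i ∨ 2 * i < j) {x : C.A X} (hx : x ∈ C.gr X i) :
    C.act (π j) x = 0 := by
  rw [← actSeq_const (H := H) (hπ.idem j) i x]
  apply hS X i _ _ x hx
  intro r hr
  refine ⟨hπ.deg j, fun a ha => hπ.act_ne j _ a ?_ ha⟩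
  omega

lemma murreB0_of_self (hS : SelfVanishing H) (X : 𝒱.Obj) : MurreB0 H X := by
  rw [murreB0_iff]
  intro π hπ i j x hx hj
  exact act_zero_of_self hS hπ (Or.inr hj) hx

lemma murreB1_of_self (hS : SelfVanishing H) (X : 𝒱.Obj) : MurreB1 H X := by
  intro π hπ i
  rw [eq_bot_iff]
  intro x hx
  rw [hπ.mem_ckFil] at hx
  rw [Submodule.mem_bot]
  have h1 : x = ∑ j ∈ Finset.range (2 * X.dim + 1), C.act (π j) x := by
    rw [← act_sum, hπ.sum, act_dg]
  rw [h1]
  apply Finset.sum_eq_zero
  intro j _
  by_cases hj : j < i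
  · exact act_zero_of_self hS hπ (Or.inl hj) hx.1
  · exact hx.2 j (by omega)

lemma actSeq_shift (Γ : ℕ → C.A (X.prod X)) (n : ℕ) (x : C.A X) :
    actSeq C Γ (n + 1) x = actSeq C (fun r => Γ (r + 1)) n (C.act (Γ 0) x) := by
  induction n with
  | zero => rfl
  | succ n ih =>
    change C.act (Γ (n + 1)) (actSeq C Γ (n + 1) x) = _
    rw [ih]
    rfl

/-- Self-vanishing implies (D). -/
lemma murreD_of_self (hS : SelfVanishing H) (X : 𝒱.Obj) : MurreD H X := by
  intro π hπ i x
  rw [hπ.mem_ckFil]
  constructor
  · rintro ⟨hx, h⟩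
    refine ⟨hx, ?_⟩
    have h1 := hπ.act_self (2 * i) (H.cl x) (by
      have := H.cl_mem hx
      push_cast
      exact this)
    rw [← cl_act H, h (2 * i) (by omega), map_zero] at h1
    exact h1.symm
  · rintro ⟨hx, hcl⟩
    refine ⟨hx, fun j hj => ?_⟩
    rcases eq_or_lt_of_le (show 2 * i ≤ j by omega) with hj' | hj'
    · subst hj'
      rcases lt_or_ge X.dim i with hi | hi
      · have h0 : x = 0 := hC.gr_top X i x hx (by exact_mod_cast hi)
        rw [h0, TheoryData.act_map_zero]
      · obtain ⟨u0, hu0, v0, hv0, huv⟩ := exists_dual_pair (C := C) (H := H) X (l := i) hi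
        have hE : C.ext v0 x ∈ C.gr (X.prod X) X.dim := by
          have := ext_mem (C := C) (H := H) hv0 hx
          rwa [sub_add_cancel] at this
        have hEu : C.act (C.ext v0 x) u0 = x := by
          rw [act_ext (H := H), huv, one_mul]
        have hEcl : H.cl (C.ext v0 x) = 0 := by
          rw [TheoryData.ext, map_mul, H.cl_pull (snd X X) x, hcl, map_zero, mul_zero]
        let Γ : ℕ → C.A (X.prod X) := fun r => if r = 0 then C.ext v0 x else π (2 * i)
        have h1 := hS X i Γ (by
          intro r hr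
          by_cases h0 : r = 0
          · simp only [Γ]
            rw [if_pos h0]
            refine ⟨hE, fun a _ => ?_⟩
            rw [hEcl, TheoryData.act_zero]
          · simp only [Γ]
            rw [if_neg h0]
            refine ⟨hπ.deg _, fun a ha => hπ.act_ne _ _ a ?_ ha⟩
            omega) u0 hu0
        rw [actSeq_shift (H := H)] at h1
        have h2 : (fun r => Γ (r + 1)) = fun _ => π (2 * i) := by
          funext r
          simp only [Γ]
          rw [if_neg (by omega)]
        have h3 : Γ 0 = C.ext v0 x := rfl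
        rw [h2, h3, hEu] at h1
        rcases Nat.eq_zero_or_pos i with hi0 | hi0
        · subst hi0
          have h4 : x = 0 := h1
          rw [h4, TheoryData.act_map_zero]
        · obtain ⟨m, rfl⟩ : ∃ m, i = m + 1 := ⟨i - 1, by omega⟩
          rwa [actSeq_const (H := H) (hπ.idem _)] at h1
    · exact act_zero_of_self hS hπ (Or.inr hj') hx

/-- Self-vanishing implies that homologically trivial correspondences are nilpotent. -/
lemma nilpotent_of_self (hS : SelfVanishing H) (ν : Cor C X) (hν : ν ∈ cor0 C X)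
    (hcl : H.cl (X := X.prod X) ν = 0) : ν ^ (X.dim + 1) = 0 := by
  have hν0 : (ν : C.A (X.prod X)) ∈ C.gr (X.prod X) (X.dim + 0) := by rw [add_zero]; exact hν
  obtain ⟨G, hG, hG1, hG2⟩ := Realised.extR (H := H) hν0 X
  have h1 : ∀ n, actSeq C (fun _ => G) n (dg C X) = (ν ^ n : Cor C X) := by
    intro n
    induction n with
    | zero => rw [pow_zero]; rfl
    | succ n ih =>
      change C.act G (actSeq C (fun _ => G) n (dg C X)) = _
      rw [ih, hG1, pow_succ']
      exact (comp_eq_extR C (X := X) (Y := X) (Z := X) _ ν).symm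
  rw [← h1]
  apply hS (X.prod X) X.dim
  · intro r _
    refine ⟨by rw [add_zero] at hG; exact hG, fun a _ => ?_⟩
    rw [hG2]
    change H.extR (H.cl (X := X.prod X) ν) X a = 0
    rw [hcl, TheoryData.extR, map_zero, zero_mul, map_zero]
  · exact dg_mem C X

/-- Chow-Kunneth decompositions from Kunneth projectors and nilpotence. -/
lemma exists_CK (hK : KunnethConjecture H) (X : 𝒱.Obj)
    (hnil : ∀ ν : Cor C X, ν ∈ cor0 C X → H.cl (X := X.prod X) ν = 0 → IsNilpotent ν) :
    ∃ π, IsCK H X π := by
  let f : cor0 C X →+* Module.End K (H.A X) :=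
    (actH C X H).comp (cor0 C X).val.toRingHom
  have hf : ∀ a : cor0 C X, f a = actH C X H (a : Cor C X) := fun a => rfl
  choose p hp hp' using fun m : ℕ => hK X m
  let P : ℕ → Cor C X := p
  have hPact : ∀ (m : ℕ) (l : ℤ) (a : H.A X), a ∈ H.gr X l →
      actH C X H (P m) a = if l = m then a else 0 := fun m l a ha => hp' m l a ha
  let e : Fin (2 * X.dim + 1) → Module.End K (H.A X) := fun m => actH C X H (P m)
  have he : CompleteOrthogonalIdempotents e := by
    refine ⟨⟨?_, ?_⟩, ?_⟩
    · intro m
      apply ext_gr H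
      intro l a ha
      rw [Module.End.mul_apply]
      simp only [e]
      rw [hPact _ l a ha]
      split_ifs with h1
      · rw [hPact _ l a ha, if_pos h1]
      · rw [map_zero]
    · intro m n hmn
      change e m * e n = 0
      apply ext_gr H
      intro l a ha
      rw [Module.End.mul_apply]
      simp only [e]
      rw [hPact _ l a ha]
      split_ifs with h1
      · rw [hPact _ l a ha, if_neg]
        · rfl
        · intro h2
          apply hmn
          apply Fin.ext
          have : ((m : ℕ) : ℤ) = (n : ℕ) := by rw [← h1, ← h2]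
          exact_mod_cast this
      · rw [map_zero]; rfl
    · apply ext_gr H
      intro l a ha
      rw [LinearMap.sum_apply]
      simp only [e]
      rw [Finset.sum_congr rfl fun (m : Fin (2 * X.dim + 1)) _ => hPact m l a ha]
      change _ = a
      by_cases ha0 : a = 0
      · subst ha0
        simp
      · have h0 := nonneg_of_mem H ha ha0
        obtain ⟨l, rfl⟩ := Int.eq_ofNat_of_zero_le h0
        have h1 : l ≤ 2 * X.dim := by
          by_contra h2
          rw [gr_top H (by omega)] at ha
          exact ha0 ((Submodule.mem_bot _).1 ha)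
        rw [Finset.sum_eq_single (⟨l, by omega⟩ : Fin (2 * X.dim + 1))]
        · rw [if_pos rfl]
        · intro b _ hb
          rw [if_neg]
          intro h2
          apply hb
          apply Fin.ext
          exact_mod_cast h2.symm
        · intro h2
          exact absurd (Finset.mem_univ _) h2
  obtain ⟨e', he', hfe⟩ := CompleteOrthogonalIdempotents.lift_of_isNilpotent_ker f (by
      intro x hx
      rw [RingHom.mem_ker, hf] at hx
      have h1 : H.cl (X := X.prod X) (x : Cor C X) = 0 := by
        apply hom_zero_of_act H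
        intro a
        exact LinearMap.congr_fun hx a
      obtain ⟨n, hn⟩ := hnil _ x.2 h1
      exact ⟨n, Subtype.ext hn⟩) he (fun m => ⟨⟨P m, hp m⟩, rfl⟩)
  let Q : ℕ → Cor C X := fun n => if h : n < 2 * X.dim + 1 then (e' ⟨n, h⟩ : Cor C X) else 0
  have Q1 : ∀ (n : ℕ) (h : n < 2 * X.dim + 1), Q n = (e' ⟨n, h⟩ : Cor C X) := by
    intro n h
    simp only [Q]
    rw [dif_pos h]
  have Q2 : ∀ n, ¬ n < 2 * X.dim + 1 → Q n = 0 := by
    intro n h
    simp only [Q]
    rw [dif_neg h]
  refine ⟨Q, isCK_of ?_ ?_ ?_ ?_ ?_⟩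
  · intro n
    by_cases h : n < 2 * X.dim + 1
    · rw [Q1 n h]
      exact (e' ⟨n, h⟩).2
    · rw [Q2 n h]
      exact (cor0 C X).zero_mem
  · intro n hn
    exact Q2 n (by omega)
  · intro m n
    by_cases hm : m < 2 * X.dim + 1
    · by_cases hn : n < 2 * X.dim + 1
      · rw [Q1 m hm, Q1 n hn]
        have h1 := he'.toOrthogonalIdempotents.mul_eq ⟨m, hm⟩ ⟨n, hn⟩
        have h2 := congrArg (fun z : cor0 C X => (z : Cor C X)) h1
        simp only [MulMemClass.coe_mul] at h2
        rw [h2]
        by_cases hmn : m = n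
        · subst hmn
          rw [if_pos rfl, if_pos rfl]
        · rw [if_neg hmn, if_neg]
          · rfl
          · intro h3
            apply hmn
            exact congrArg Fin.val h3
      · rw [Q2 n hn, mul_zero]
        split_ifs with h
        · exact absurd (h ▸ hm) hn
        · rfl
    · rw [Q2 m hm, zero_mul]
      split_ifs
      · rfl
      · rfl
  · rw [Finset.sum_range]
    have h1 : ∀ m : Fin (2 * X.dim + 1), Q m = (e' m : Cor C X) := fun m => Q1 m m.2
    rw [Finset.sum_congr rfl fun m _ => h1 m]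
    have h2 := congrArg (fun z : cor0 C X => (z : Cor C X)) he'.complete
    simpa using h2
  · intro n m a ha
    by_cases hn : n < 2 * X.dim + 1
    · rw [Q1 n hn]
      have h1 : actH C X H (e' ⟨n, hn⟩ : Cor C X) = e ⟨n, hn⟩ := congrFun hfe ⟨n, hn⟩
      rw [h1]
      exact hPact n m a ha
    · rw [Q2 n hn, map_zero, LinearMap.zero_apply]
      split_ifs with hmn
      · rw [hmn, gr_top H (by omega)] at ha
        exact ((Submodule.mem_bot _).1 ha).symm
      · rfl

/-- Under Murre's conjectures, chains lie in the filtrations attached to Chow-Kunneth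
decompositions. -/
lemma chain_ckFil (hA : ∀ X : 𝒱.Obj, ∃ π, IsCK H X π) (hB0 : ∀ X : 𝒱.Obj, MurreB0 H X)
    (hD : ∀ X : 𝒱.Obj, MurreD H X) {n i : ℕ} {x : C.A X} (h : Chain H n X i x) :
    ∀ π, IsCK H X π → x ∈ ckFil C π i n := by
  induction h with
  | nil X i x hx =>
    intro π hπ
    rw [hB0 X π hπ i]
    exact hx
  | cons r Z X j i z Γ _ hΓ had ih =>
    intro π hπ
    obtain ⟨ρ, hρ⟩ := hA Z
    have hz := ih ρ hρ
    rw [hρ.mem_ckFil] at hz
    have hΓ' : Γ ∈ C.gr (Z.prod X) (Z.dim + ((i : ℤ) - j)) := by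
      rw [← add_sub_assoc]; exact hΓ
    have hmem : C.act Γ z ∈ C.gr X i := by
      have := act_mem (C := C) hΓ' hz.1
      rwa [add_sub_cancel] at this
    rw [hπ.mem_ckFil]
    refine ⟨hmem, fun b hb => ?_⟩
    rcases lt_or_ge (Z.dim + i) j with h1 | h1
    · have h2 : Γ = 0 := by
        have h3 : Γ ∈ C.gr (Z.prod X) (Z.dim + i - j) := hΓ
        rw [C.gr_neg _ _ (by omega)] at h3
        exact (Submodule.mem_bot _).1 h3
      rw [h2, TheoryData.act_zero, TheoryData.act_map_zero]
    obtain ⟨t, ht⟩ := Nat.exists_eq_add_of_le h1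
    have e1 : (Z.dim : ℤ) + i - j = (t : ℕ) := by
      have : ((Z.dim + i : ℕ) : ℤ) = ((j + t : ℕ) : ℤ) := by rw [ht]
      push_cast at this
      linarith
    have hΓt : Γ ∈ C.gr (Z.prod X) (t : ℕ) := by
      have h3 : Γ ∈ C.gr (Z.prod X) (Z.dim + i - j) := hΓ
      rwa [e1] at h3
    have hz1 : z = ∑ a ∈ Finset.range (2 * Z.dim + 1), C.act (ρ a) z := by
      rw [← act_sum, hρ.sum, act_dg]
    have hkey : ∀ a ≤ 2 * Z.dim, a + r ≤ 2 * j → C.comp (C.comp (ρ a) Γ) (π b) = 0 := by
      intro a ha har
      rcases lt_or_ge (2 * t + a) (2 * Z.dim + b) with hlt | hge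
      · exact comp_zero_of_B0 (hB0 _) hρ hπ hΓt hlt
      · -- the critical case
        have har' : a + r = 2 * j := by omega
        have hbr : b + r = 2 * i := by omega
        have hidem : C.comp (C.comp (ρ a) (C.comp (C.comp (ρ a) Γ) (π b))) (π b) =
            C.comp (C.comp (ρ a) Γ) (π b) := by
          rw [← comp_assoc C (ρ a) (C.comp (ρ a) Γ) (π b), ← comp_assoc C (ρ a) (ρ a) Γ,
            hρ.idem, comp_assoc C _ (π b) (π b), hπ.idem]
        rw [← hidem]
        apply comp_zero_of_prod (H := H) hρ hπ ha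
        have hdeg : C.comp (C.comp (ρ a) Γ) (π b) ∈ C.gr (Z.prod X) (t : ℕ) := by
          have h3 : ρ a ∈ C.gr (Z.prod Z) (Z.dim + 0) := by rw [add_zero]; exact hρ.deg a
          have h4 : π b ∈ C.gr (X.prod X) (X.dim + 0) := by rw [add_zero]; exact hπ.deg b
          have h5 := comp_mem C (comp_mem C h3 hΓ') h4
          have e2 : (Z.dim : ℤ) + (0 + ((i : ℤ) - j) + 0) = (t : ℕ) := by rw [← e1]; ring
          rwa [e2] at h5
        have hcl : H.cl (C.comp (C.comp (ρ a) Γ) (π b)) = 0 := by
          apply hom_zero_of_act H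
          intro c
          have h6 : (H.actL (H.cl (C.comp (C.comp (ρ a) Γ) (π b)))) = 0 := by
            apply ext_gr H
            intro l c hc
            rw [TheoryData.actL_apply, actH_comp, actH_comp, LinearMap.zero_apply]
            by_cases hl : l = a
            · have h7 : H.act (H.cl (ρ a)) c = c := by
                subst hl
                exact hρ.act_self a c hc
              rw [h7]
              have h8 : H.act (H.cl Γ) c = 0 := by
                rcases had with had | ⟨_, had⟩
                · exact had l c hc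
                · apply had c
                  have e3 : (2 * (j : ℤ) - r) = l := by rw [hl]; omega
                  rw [e3]
                  exact hc
              rw [h8, TheoryData.act_map_zero]
            · rw [hρ.act_ne a l c hl hc, TheoryData.act_map_zero, TheoryData.act_map_zero]
          exact LinearMap.congr_fun h6 c
        have h9 := (hD (Z.prod X) _ (hρ.dual.prod hπ) t _).2 ⟨hdeg, hcl⟩
        rw [(hρ.dual.prod hπ).mem_ckFil] at h9
        exact h9.2 _ (by omega)
    rw [hz1, act_map_sum, act_map_sum]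
    apply Finset.sum_eq_zero
    intro a ha
    rw [Finset.mem_range] at ha
    by_cases har : a + r ≤ 2 * j
    · rw [← C.act_comp (ρ a) Γ, ← C.act_comp _ (π b), hkey a (by omega) har,
        TheoryData.act_zero]
    · rw [hz.2 a (by omega), TheoryData.act_map_zero, TheoryData.act_map_zero]

/-- **The criterion by self-correspondences.** -/
theorem exists_iff_self (hK : KunnethConjecture H) :
    (∃ F : Filtration C, IsBB H F) ↔ SelfVanishing H := by
  constructor
  · rintro ⟨F, hF⟩
    exact selfVanishing_of_isBB hF hK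
  · intro hS
    rw [exists_iff]
    intro X i x hx
    have hA : ∀ X : 𝒱.Obj, ∃ π, IsCK H X π := fun X =>
      exists_CK hK X fun ν hν hcl => ⟨_, nilpotent_of_self hS ν hν hcl⟩
    obtain ⟨π, hπ⟩ := hA X
    have h1 := chain_ckFil hA (murreB0_of_self hS) (murreD_of_self hS) hx π hπ
    rw [murreB1_of_self hS X π hπ i, Submodule.mem_bot] at h1
    exact h1

lemma actSeq_zero (n : ℕ) : actSeq C (fun _ => (0 : C.A (X.prod X))) n 0 = 0 := by
  induction n with
  | zero => rfl
  | succ n _ =>
    change C.act 0 _ = 0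
    rw [TheoryData.act_zero]

/-- Chow-Kunneth projectors of high weight act as zero on the steps of the filtration. -/
lemma act_ck_fil {F : Filtration C} (hF : IsBB H F) (hK : KunnethConjecture H)
    {π : ℕ → C.A (X.prod X)} (hπ : IsCK H X π) {i n m : ℕ} (hm : 2 * i < m + n) {x : C.A X}
    (hx : F.Mem i n x) : C.act (π m) x = 0 := by
  have h1 : ∀ N, F.Mem i (n + N) (C.act (π m) x) := by
    intro N
    induction N with
    | zero =>
      exact (isStable_of_isBB hF).stable X X i i n (π m) (deg_self (H := H) (hπ.deg m)) x hx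
    | succ N ih =>
      have h2 := (isStable_of_isBB hF).shift X X i i (n + N) (π m)
        (deg_self (H := H) (hπ.deg m)) (Or.inr ⟨hK, fun a ha => hπ.act_ne m _ a (by omega) ha⟩)
        _ ih
      rwa [← C.act_comp, hπ.idem] at h2
  apply hF.bounded.top X i
  exact fil_anti_le (H := H) F X i (by omega : i + 1 ≤ n + (i + 1)) (h1 (i + 1))

/-- **The steps of a Bloch-Beilinson filtration.** -/
theorem mem_iff_self (hK : KunnethConjecture H) {F : Filtration C} (hF : IsBB H F) (X : 𝒱.Obj)
    (i n : ℕ) (x : C.A X) : F.Mem i n x ↔ ∃ (Γ : ℕ → C.A (X.prod X)) (y : C.A X),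
      Lowering H i n Γ ∧ C.Deg i y ∧ actSeq C Γ n y = x := by
  constructor
  · intro hx
    rcases lt_or_ge i n with hn | hn
    · have h0 : x = 0 := hF.bounded.top X i x (fil_anti_le (H := H) F X i (by omega) hx)
      refine ⟨fun _ => 0, 0, ?_, Submodule.zero_mem _, ?_⟩
      · intro r _
        refine ⟨Submodule.zero_mem _, fun a _ => ?_⟩
        rw [map_zero, TheoryData.act_zero]
      · rw [actSeq_zero (H := H), h0]
    · have hS := selfVanishing_of_isBB hF hK
      obtain ⟨π, hπ⟩ : ∃ π, IsCK H X π :=
        exists_CK hK X fun ν hν hcl => ⟨_, nilpotent_of_self hS ν hν hcl⟩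
      refine ⟨fun r => dg C X - π (2 * i - r), x, ?_, F.le_gr X i n hx, ?_⟩
      · intro r hr
        refine ⟨Submodule.sub_mem _ (dg_mem C X) (hπ.deg _), fun a ha => ?_⟩
        have h1 : H.cl (dg C X - π (2 * i - r)) = H.cl (dg C X) - H.cl (π (2 * i - r)) :=
          map_sub _ _ _
        rw [h1, H.act_sub, actH_dg, hπ.act_self (2 * i - r) a, sub_self]
        have e1 : ((2 * i - r : ℕ) : ℤ) = 2 * (i : ℤ) - r := by omega
        rw [e1]
        exact ha
      · have h2 : ∀ m ≤ n, actSeq C (fun r => dg C X - π (2 * i - r)) m x = x := by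
          intro m
          induction m with
          | zero => exact fun _ => rfl
          | succ m ih =>
            intro hm
            change C.act (dg C X - π (2 * i - m)) (actSeq C _ m x) = x
            rw [ih (by omega), C.act_sub, act_dg, act_ck_fil hF hK hπ (by omega) hx, sub_zero]
        exact h2 n le_rfl
  · rintro ⟨Γ, y, hΓ, hy, rfl⟩
    exact actSeq_mem (isStable_of_isBB hF) hK ((hF.bounded.zero X i y).2 hy) n hΓ

end Pool.Agent.V1157.BBF
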