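import Pool.Agent.W492.BB.Real

/-!
# The filtration spanned by chains of correspondences
-/

open CategoryTheory AlgebraicGeometry

universe u v w

namespace Pool.Agent.V1157.BBF

open Pool.Agent.H914 Pool.Agent.H914.VarClass Pool.Agent.H914.VarClass.Obj Pool.Agent.W492.BB

set_option linter.unusedSectionVars false

variable {k : Type u} [Field k] {𝒱 : VarClass k} {C : TheoryData.{u, v, 0} 𝒱 ℚ} {K : Type w}
  [Field K] {H : WeilTheoryData.{u, v, w} C K} [hC : IsChow C] [hH : IsWeil H]
  {X Y Z W : 𝒱.Obj}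

include hC hH

lemma cl_comp' (Γ : C.A (X.prod Y)) (Δ : C.A (Y.prod Z)) :
    H.cl (C.comp Γ Δ) = H.comp (H.cl Γ) (H.cl Δ) := by
  rw [TheoryData.comp, TheoryData.comp, H.cl_push, map_mul, H.cl_pull, H.cl_pull]

lemma comp_mem' {e e' : ℤ} {Γ : C.A (X.prod Y)} {Δ : C.A (Y.prod Z)}
    (hΓ : Γ ∈ C.gr (X.prod Y) (X.dim + e)) (hΔ : Δ ∈ C.gr (Y.prod Z) (Y.dim + e')) :
    C.comp Γ Δ ∈ C.gr (X.prod Z) (X.dim + (e + e')) := by
  have h := C.push_mem (t13 X Y Z) (C.mul_mem (C.pull_mem (t23 X Y Z) hΔ)
    (C.pull_mem (fst (X.prod Y) Z) hΓ))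
  have e1 : (Y.dim : ℤ) + e' + ((X.dim : ℤ) + e) +
      1 * (((X.prod Z).dim : ℤ) - (((X.prod Y).prod Z).dim : ℤ)) = X.dim + (e + e') := by
    rw [dim_prod, dim_prod, dim_prod]; push_cast; ring
  rwa [e1] at h

lemma kills_comp {m : ℤ} {Γ : C.A (X.prod Y)} (h : Kills H Γ m) (Δ : C.A (Y.prod Z)) :
    Kills H (C.comp Γ Δ) m := by
  intro a ha
  rw [cl_comp' (H := H), H.act_comp, h a ha, TheoryData.act_map_zero]

lemma admissible_comp {m : ℤ} {Γ : C.A (X.prod Y)} (h : Admissible H Γ m)
    (Δ : C.A (Y.prod Z)) : Admissible H (C.comp Γ Δ) m := by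
  rcases h with h | ⟨h, h'⟩
  · exact Or.inl fun l => kills_comp (h l) Δ
  · exact Or.inr ⟨h, kills_comp h' Δ⟩

/-- The span of the `n`-chains in `CH^i(X)`. -/
def S (H : WeilTheoryData.{u, v, w} C K) (n : ℕ) (X : 𝒱.Obj) (i : ℕ) : Submodule ℚ (C.A X) :=
  Submodule.span ℚ {x | Chain H n X i x}

lemma chain_deg {n i : ℕ} {x : C.A X} (h : Chain H n X i x) : x ∈ C.gr X i := by
  induction h with
  | nil X i x hx => exact hx
  | cons r Z X j i z Γ _ hΓ _ ih =>
    have h1 : Γ ∈ C.gr (Z.prod X) (Z.dim + ((i : ℤ) - j)) := by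
      rw [← add_sub_assoc]; exact hΓ
    have := act_mem (C := C) h1 ih
    rwa [add_sub_cancel] at this

lemma S_le (n : ℕ) (X : 𝒱.Obj) (i : ℕ) : S H n X i ≤ C.gr X i :=
  Submodule.span_le.2 fun _ hx => chain_deg hx

lemma S_zero (X : 𝒱.Obj) (i : ℕ) : S H 0 X i = C.gr X i :=
  le_antisymm (S_le 0 X i) fun x hx => Submodule.subset_span (Chain.nil X i x hx)

lemma chain_act {n j i : ℕ} {z : C.A Z} (hz : Chain H n Z j z) {Γ : C.A (Z.prod X)}
    (hΓ : Γ ∈ C.gr (Z.prod X) (Z.dim + i - j)) : Chain H n X i (C.act Γ z) := by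
  cases hz with
  | nil _ _ _ hx =>
    apply Chain.nil
    have h1 : Γ ∈ C.gr (Z.prod X) (Z.dim + ((i : ℤ) - j)) := by
      rw [← add_sub_assoc]; exact hΓ
    have := act_mem (C := C) h1 hx
    rwa [add_sub_cancel] at this
  | cons r Y _ l _ y Δ hy hΔ had =>
    rw [← C.act_comp]
    refine Chain.cons r Y X l i y _ hy ?_ (admissible_comp had Γ)
    have h1 : Γ ∈ C.gr (Z.prod X) (Z.dim + ((i : ℤ) - j)) := by
      rw [← add_sub_assoc]; exact hΓ
    have h2 : Δ ∈ C.gr (Y.prod Z) (Y.dim + ((j : ℤ) - l)) := by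
      rw [← add_sub_assoc]; exact hΔ
    have h3 := comp_mem' (H := H) h2 h1
    have e1 : (Y.dim : ℤ) + (((j : ℤ) - l) + ((i : ℤ) - j)) = Y.dim + i - l := by ring
    rwa [e1] at h3

lemma S_act {n j i : ℕ} {z : C.A Z} (hz : z ∈ S H n Z j) {Γ : C.A (Z.prod X)}
    (hΓ : Γ ∈ C.gr (Z.prod X) (Z.dim + i - j)) : C.act Γ z ∈ S H n X i := by
  have h1 : S H n Z j ≤ (S H n X i).comap (C.actL Γ) := by
    apply Submodule.span_le.2
    intro x hx
    exact Submodule.subset_span (chain_act hx hΓ)
  exact h1 hz

lemma S_shift {n j i : ℕ} {z : C.A Z} (hz : z ∈ S H n Z j) {Γ : C.A (Z.prod X)}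
    (hΓ : Γ ∈ C.gr (Z.prod X) (Z.dim + i - j)) (had : Admissible H Γ (2 * j - n)) :
    C.act Γ z ∈ S H (n + 1) X i := by
  have h1 : S H n Z j ≤ (S H (n + 1) X i).comap (C.actL Γ) := by
    apply Submodule.span_le.2
    intro x hx
    exact Submodule.subset_span (Chain.cons n Z X j i x Γ hx hΓ had)
  exact h1 hz

lemma S_anti (n : ℕ) (X : 𝒱.Obj) (i : ℕ) : S H (n + 1) X i ≤ S H n X i := by
  apply Submodule.span_le.2
  intro x hx
  cases hx with
  | cons _ Z _ j _ z Γ hz hΓ _ => exact S_act (Submodule.subset_span hz) hΓ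

lemma S_realised {n j i : ℕ} {e : ℤ} {φ : C.A Z → C.A X} {ψ : H.A Z → H.A X}
    (h : Realised H Z X e φ ψ) (he : (i : ℤ) = j + e) {z : C.A Z} (hz : z ∈ S H n Z j) :
    φ z ∈ S H n X i := by
  obtain ⟨Γ, hΓ, h1, _⟩ := h
  rw [← h1]
  apply S_act hz
  have e1 : (Z.dim : ℤ) + i - j = Z.dim + e := by rw [he]; ring
  rwa [e1]

lemma S_shift_realised {n j i : ℕ} {e : ℤ} {φ : C.A Z → C.A X} {ψ : H.A Z → H.A X}
    (h : Realised H Z X e φ ψ) (he : (i : ℤ) = j + e)
    (hψ : (∀ a, ψ a = 0) ∨ (KunnethConjecture H ∧ ∀ a ∈ H.gr Z (2 * j - n), ψ a = 0))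
    {z : C.A Z} (hz : z ∈ S H n Z j) : φ z ∈ S H (n + 1) X i := by
  obtain ⟨Γ, hΓ, h1, h2⟩ := h
  rw [← h1]
  apply S_shift hz
  · have e1 : (Z.dim : ℤ) + i - j = Z.dim + e := by rw [he]; ring
    rwa [e1]
  · rcases hψ with h3 | ⟨h3, h4⟩
    · left
      intro l a _
      rw [h2, h3]
    · right
      refine ⟨h3, fun a ha => ?_⟩
      rw [h2, h4 a ha]

lemma S_one (X : 𝒱.Obj) (i : ℕ) (x : C.A X) : x ∈ S H 1 X i ↔ x ∈ C.gr X i ∧ H.cl x = 0 := by
  constructor
  · intro hx
    refine ⟨S_le 1 X i hx, ?_⟩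
    have h1 : ∀ y, Chain H 1 X i y → H.cl y = 0 := by
      intro y hy
      cases hy with
      | cons _ Z _ j _ z Γ hz hΓ had =>
        rw [cl_act H]
        have hz' := H.cl_mem (chain_deg hz)
        rcases had with had | ⟨_, had⟩
        · exact had _ _ hz'
        · apply had
          have e1 : (2 * (j : ℤ) - (0 : ℕ)) = 2 * j := by simp
          rw [e1]
          exact hz'
    have h2 : ∀ y ∈ S H 1 X i, H.cl y = 0 := by
      intro y hy
      induction hy using Submodule.span_induction with
      | mem y hy => exact h1 y hy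
      | zero => rw [map_zero]
      | add a b _ _ ha hb => rw [map_add, ha, hb, add_zero]
      | smul q a _ ha =>
        have e1 : q • a = (q • (1 : C.A X)) * a := by rw [smul_mul_assoc, one_mul]
        rw [e1, map_mul, ha, mul_zero]
    exact h2 x hx
  · rintro ⟨hx, hcl⟩
    obtain ⟨a, ha, _, h2⟩ := exists_deg_one C X
    have h3 : C.act (C.ext a x) 1 = x := by
      rw [TheoryData.act_apply, map_one, mul_one, TheoryData.ext, C.proj_right, h2, one_mul]
    have h4 : C.ext a x ∈ C.gr (X.prod X) (X.dim + i - (0 : ℕ)) := by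
      have := C.mul_mem (C.pull_mem (fst X X) ha) (C.pull_mem (snd X X) hx)
      rw [TheoryData.ext]
      simpa using this
    rw [← h3]
    refine Submodule.subset_span (Chain.cons 0 X X 0 i 1 _ (Chain.nil X 0 1 ?_) h4 ?_)
    · exact_mod_cast C.one_mem X
    · left
      intro l b _
      have h5 : H.cl (C.ext a x) = 0 := by
        rw [TheoryData.ext, map_mul, H.cl_pull (snd X X) x, hcl, map_zero, mul_zero]
      rw [h5, TheoryData.act_zero]

/-- Kunneth projectors in all integral degrees. -/
lemma exists_projector (h : KunnethConjecture H) (X : 𝒱.Obj) (m : ℤ) :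
    ∃ q : C.A (X.prod X), q ∈ C.gr (X.prod X) X.dim ∧ ∀ (l : ℤ) (a : H.A X),
      a ∈ H.gr X l → H.act (H.cl q) a = if l = m then a else 0 := by
  rcases le_or_gt 0 m with hm | hm
  · obtain ⟨m, rfl⟩ := Int.eq_ofNat_of_zero_le hm
    exact h X m
  · refine ⟨0, Submodule.zero_mem _, fun l a ha => ?_⟩
    rw [map_zero, TheoryData.act_zero]
    split_ifs with hl
    · subst hl
      rw [H.gr_neg X l hm] at ha
      exact ((Submodule.mem_bot _).1 ha).symm
    · rfl

lemma extL_zero (Z : 𝒱.Obj) (c : H.A (X.prod Z)) :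
    H.extL (0 : H.A (X.prod Y)) Z c = 0 := by
  rw [TheoryData.extL, map_zero, zero_mul, map_zero]

/-- Compatibility with external products. -/
lemma S_ext (m : ℕ) : ∀ (n : ℕ) (X Y : 𝒱.Obj) (i j : ℕ) (x : C.A X) (y : C.A Y), x ∈ S H m X i →
    y ∈ S H n Y j → C.ext x y ∈ S H (m + n) (X.prod Y) (i + j) := by
  induction m with
  | zero =>
    intro n X Y i j x y hx hy
    rw [S_zero] at hx
    rw [zero_add]
    have h1 : Realised H Y (X.prod Y) (0 + i) (fun y => C.pull (fst X Y) x * C.pull (snd X Y) y)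
        (fun a => H.cl (C.pull (fst X Y) x) * H.pull (snd X Y) a) :=
      (Realised.pull (snd X Y)).comp (Realised.mul (C.pull_mem (fst X Y) hx))
    exact S_realised h1 (by push_cast; ring) hy
  | succ m ih =>
    intro n X Y i j x y hx hy
    induction hx using Submodule.span_induction with
    | zero => rw [TheoryData.ext_zero_left]; exact Submodule.zero_mem _
    | add a b _ _ ha hb =>
      have e1 : C.ext (a + b) y = C.ext a y + C.ext b y := by
        rw [TheoryData.ext, TheoryData.ext, TheoryData.ext, map_add, add_mul]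
      rw [e1]
      exact Submodule.add_mem _ ha hb
    | smul q a _ ha =>
      have e1 : C.ext (q • a) y = q • C.ext a y := by
        rw [TheoryData.ext, TheoryData.ext, map_smul, smul_mul_assoc]
      rw [e1]
      exact Submodule.smul_mem _ _ ha
    | mem x hx =>
      cases hx with
      | cons _ Z _ l _ z Γ hz hΓ had =>
        have hz' : z ∈ S H m Z l := Submodule.subset_span hz
        have hΓ' : Γ ∈ C.gr (Z.prod X) (Z.dim + ((i : ℤ) - l)) := by
          rw [← add_sub_assoc]; exact hΓ
        have hR := Realised.extL (H := H) hΓ' Y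
        rw [← C.extL_ext]
        rcases had with had | ⟨hK, had⟩
        · have h1 : H.cl Γ = 0 := eq_zero_of_act H _ (act_eq_zero_of_kills H Γ had)
          have h2 : C.extL Γ Y (C.ext z y) ∈ S H (m + n + 1) (X.prod Y) (i + j) := by
            apply S_shift_realised hR _ (Or.inl _) (ih n Z Y l j z y hz' hy)
            · push_cast; ring
            · intro a
              rw [h1, extL_zero (C := C)]
          have e1 : m + 1 + n = m + n + 1 := by ring
          rw [e1]
          exact h2
        · obtain ⟨q, hq, hq'⟩ := exists_projector hK Y (2 * j - n)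
          have hq0 : q ∈ C.gr (Y.prod Y) (Y.dim + 0) := by rw [add_zero]; exact hq
          have e2 : C.ext z y = C.ext z (C.act q y) + C.ext z (y - C.act q y) := by
            rw [TheoryData.ext, TheoryData.ext, TheoryData.ext, ← mul_add, ← map_add,
              add_sub_cancel]
          have e3 : C.extL Γ Y (C.ext z y) = C.extL Γ Y (C.ext z (C.act q y)) +
              C.extL Γ Y (C.ext z (y - C.act q y)) := by
            rw [e2]
            exact map_add (C.extLL Γ Y) _ _
          rw [e3]
          have e1 : m + 1 + n = m + n + 1 := by ring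
          rw [e1]
          apply Submodule.add_mem
          · -- first term
            have hR2 := Realised.extR (H := H) hq0 X
            have h4 : C.extL Γ Y (C.ext z (C.act q y)) =
                C.extR q X (C.extL Γ Y (C.ext z y)) := by
              rw [C.extL_ext, C.extL_ext, C.extR_ext q fun c => chow_mul_comm _ _]
            rw [h4]
            apply S_shift_realised (hR.comp hR2) _ (Or.inr ⟨hK, _⟩) (ih n Z Y l j z y hz' hy)
            · push_cast; ring
            · intro a ha
              have h5 : H.gr (Z.prod Y) (2 * ((l + j : ℕ) : ℤ) - ((m + n : ℕ) : ℤ)) ≤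
                  LinearMap.ker (H.extRL (H.cl q) X ∘ₗ H.extLL (H.cl Γ) Y) := by
                refine (H.kunneth Z Y _).trans (Submodule.span_le.2 ?_)
                rintro _ ⟨p, a, b, ha, hb, rfl⟩
                rw [SetLike.mem_coe, LinearMap.mem_ker, LinearMap.comp_apply]
                change H.extR (H.cl q) X (H.extL (H.cl Γ) Y (H.ext a b)) = 0
                rw [H.extL_ext, H.extR_ext]
                · rw [hq' _ b hb]
                  split_ifs with hp
                  · have hp' : p = 2 * l - m := by push_cast at hp; linarith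
                    subst hp'
                    rw [had a ha, TheoryData.ext_zero_left]
                  · rw [TheoryData.ext_zero_right]
                · intro c
                  rw [← H.cl_pull, H.cl_central]
              exact h5 ha
          · -- second term
            have hq1 : Realised H Y Y 0 (fun y => y - C.act q y)
                (fun a => a - H.act (H.cl q) a) :=
              (Realised.id Y).sub (Realised.of hq0)
            have h6 : y - C.act q y ∈ S H (n + 1) Y j := by
              apply S_shift_realised hq1 (by ring) (Or.inr ⟨hK, _⟩) hy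
              intro a ha
              rw [hq' _ a ha, if_pos rfl, sub_self]
            have h7 := ih (n + 1) Z Y l j z _ hz' h6
            exact S_realised hR (by push_cast; ring) h7

/-- Compatibility with products. -/
lemma S_mul {X : 𝒱.Obj} {i j m n : ℕ} {x y : C.A X} (hx : x ∈ S H m X i) (hy : y ∈ S H n X j) :
    x * y ∈ S H (m + n) X (i + j) := by
  have h1 := S_ext m n X X i j x y hx hy
  have h2 : C.pull (Obj.lift (𝟙 X) (𝟙 X)) (C.ext x y) = x * y := by
    rw [TheoryData.ext, map_mul, ← C.pull_comp, ← C.pull_comp, lift_fst, lift_snd, C.pull_id,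
      C.pull_id]
  rw [← h2]
  exact S_realised (H := H) (Realised.pull _) (by ring) h1

/-- The filtration spanned by the chains. -/
def fil (H : WeilTheoryData.{u, v, w} C K) [hH : IsWeil H] : Filtration C where
  F X i n := S H n X i
  le_gr X i n := S_le n X i
  anti X i n := S_anti n X i

lemma fil_isStable : IsStable H (fil H) where
  stable _ _ _ _ _ _ hΓ _ hz := S_act hz hΓ
  shift _ _ _ _ _ _ hΓ had _ hz := S_shift hz hΓ had

/-- **If all chains of length `i + 1` in `CH^i(X)` vanish, the spans of chains form a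
Bloch-Beilinson filtration.** -/
theorem fil_isBB (h : ∀ (X : 𝒱.Obj) (i : ℕ) (x : C.A X), Chain H (i + 1) X i x → x = 0) :
    IsBB H (fil H) where
  bounded :=
    { zero := fun X i x => by
        change x ∈ S H 0 X i ↔ _
        rw [S_zero]
      one := fun X i x => S_one X i x
      top := fun X i x hx => by
        have h1 : S H (i + 1) X i ≤ ⊥ := Submodule.span_le.2 fun y hy => h X i y hy
        exact h1 hx }
  multiplicative :=
    { mul := fun hx hy => S_mul hx hy
      pull := fun f _ _ _ hy => S_realised (H := H) (Realised.pull f) (by ring) hy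
      push := fun {X Y} f i j n x hij hx => S_realised (H := H) (Realised.push f) (by
        have : (i : ℤ) + Y.dim = j + X.dim := by exact_mod_cast hij
        linarith) hx }
  motivic := fun hK X i n Γ hΓ hkill x hx => by
    apply S_shift hx
    · have e1 : (X.dim : ℤ) + i - i = X.dim := by ring
      rw [e1]
      exact hΓ
    · exact Or.inr ⟨hK, hkill⟩

end Pool.Agent.V1157.BBF
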